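import Mathlib

set_option autoImplicit false

namespace Pool.Agent.MP_216eb3_nt.H66

open Height NumberField Height.AdmissibleAbsValues

section general

variable {K : Type*} [Field K] [AdmissibleAbsValues K]

/-- A tuple with a coordinate equal to one has height at most the product of the heights of
its coordinates. -/
theorem mulHeight_le_prod {ι : Type*} [Fintype ι] (x : ι → K) (j : ι) (hj : x j = 1) :
    mulHeight x ≤ ∏ i, mulHeight₁ (x i) := by
  have hx : x ≠ 0 := fun h => by simp [h] at hj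
  have : Nonempty ι := ⟨j⟩
  have H (v : AbsoluteValue K ℝ) : ⨆ i, v (x i) ≤ ∏ i, max (v (x i)) 1 :=
    ciSup_le fun i => Finset.le_prod_max_one (Finset.mem_univ i) fun i => v (x i)
  rw [mulHeight_eq hx]
  simp only [Height.mulHeight₁_eq]
  rw [Finset.prod_mul_distrib, ← finprod_prod_comm _ _ (by fun_prop), ← Multiset.prod_map_prod]
  gcongr
  · exact finprod_nonneg fun v => Real.iSup_nonneg_of_nonnegHomClass v.val _
  · exact Multiset.prod_map_nonneg fun _ _ => by positivity
  · exact Multiset.prod_map_le_prod_map₀ _ _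
      (fun v _ => Real.iSup_nonneg_of_nonnegHomClass v _) fun v _ => H v
  · exact finprod_le_finprod (by fun_prop)
      (fun v => Real.iSup_nonneg_of_nonnegHomClass v.val _) (by fun_prop) fun v => H v.val

theorem logHeight_le_sum {ι : Type*} [Fintype ι] (x : ι → K) (j : ι) (hj : x j = 1) :
    logHeight x ≤ ∑ i, logHeight₁ (x i) := by
  simp only [logHeight_eq_log_mulHeight, logHeight₁_eq_log_mulHeight₁]
  rw [← Real.log_prod fun i _ => mulHeight₁_ne_zero _]
  exact Real.log_le_log (mulHeight_pos _) (mulHeight_le_prod x j hj)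

theorem logHeight₁_le_logHeight {ι : Type*} [Finite ι] (x : ι → K) (j : ι) (hj : x j = 1) (i : ι) :
    logHeight₁ (x i) ≤ logHeight x := by
  rw [logHeight₁_eq_logHeight]
  have : ![x i, 1] = x ∘ ![i, j] := by
    ext k; fin_cases k <;> simp [hj]
  rw [this]
  exact logHeight_comp_le _ _

omit [AdmissibleAbsValues K] in
theorem local_root (v : AbsoluteValue K ℝ) {d : ℕ} (a : Fin d → K) (r : K) (c : ℝ) (hc : 1 ≤ c)
    (hv : ∀ B : ℝ, 0 ≤ B → (∀ i : Fin d, v (a i * r ^ (i : ℕ)) ≤ B) →
      v (∑ i : Fin d, a i * r ^ (i : ℕ)) ≤ c * B)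
    (h : r ^ d + ∑ i : Fin d, a i * r ^ (i : ℕ) = 0) :
    max (v r) 1 ≤ c * ∏ i, max (v (a i)) 1 := by
  have hP : 1 ≤ ∏ i, max (v (a i)) 1 := Finset.one_le_prod fun _ _ => le_max_right ..
  have h1 : 1 ≤ c * ∏ i, max (v (a i)) 1 := one_le_mul_of_one_le_of_one_le hc hP
  refine max_le ?_ h1
  by_contra hlt
  push Not at hlt
  have hr1 : 1 < v r := lt_of_le_of_lt h1 hlt
  rcases Nat.eq_zero_or_pos d with rfl | hd
  · simp at h
  obtain ⟨e, rfl⟩ : ∃ e, d = e + 1 := ⟨d - 1, by omega⟩
  have e1 : v r ^ (e + 1) = v (∑ i : Fin (e + 1), a i * r ^ (i : ℕ)) := by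
    rw [← map_pow, eq_neg_of_add_eq_zero_left h, AbsoluteValue.map_neg]
  have e2 := hv ((∏ i, max (v (a i)) 1) * v r ^ e) (by positivity) fun i => by
    rw [map_mul, map_pow]
    have b1 : v (a i) ≤ ∏ i, max (v (a i)) 1 :=
      Finset.le_prod_max_one (Finset.mem_univ i) fun i => v (a i)
    have b2 : v r ^ (i : ℕ) ≤ v r ^ e := pow_le_pow_right₀ hr1.le (by omega)
    gcongr
  rw [← e1, pow_succ, ← mul_assoc, mul_comm (v r ^ e)] at e2
  have hp : 0 < v r ^ e := by positivity
  have := le_of_mul_le_mul_right e2 hp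
  linarith

theorem mulHeight₁_root_le {d : ℕ} (hd : 0 < d) (a : Fin d → K) (r : K)
    (h : r ^ d + ∑ i : Fin d, a i * r ^ (i : ℕ) = 0) :
    mulHeight₁ r ≤ (d : ℝ) ^ (totalWeight K) * ∏ i, mulHeight₁ (a i) := by
  have : Nonempty (Fin d) := ⟨⟨0, hd⟩⟩
  simp only [Height.mulHeight₁_eq, totalWeight]
  rw [Finset.prod_mul_distrib, ← Multiset.prod_replicate, ← Multiset.map_const,
    ← finprod_prod_comm _ _ (by fun_prop), ← Multiset.prod_map_prod, ← mul_assoc,
    ← Multiset.prod_map_mul]
  simp only [Function.const_apply]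
  gcongr
  · exact finprod_nonneg fun _ => by positivity
  · exact Multiset.prod_map_nonneg fun _ h => by positivity
  · refine Multiset.prod_map_le_prod_map₀ _ _ (fun _ _ => by positivity) fun v _ => ?_
    refine local_root v a r d (by exact_mod_cast hd) (fun B _ hB => ?_) h
    refine (v.sum_le _ _).trans ?_
    have := Finset.sum_le_card_nsmul Finset.univ (fun i : Fin d => v (a i * r ^ (i : ℕ))) B
      fun i _ => hB i
    simpa using this
  · refine finprod_le_finprod (by fun_prop) (fun _ => by positivity) (by fun_prop) fun v => ?_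
    have := local_root v.val a r 1 le_rfl (fun B _ hB => ?_) h
    · simpa using this
    · rw [one_mul]
      exact (isNonarchimedean _ v.prop).apply_sum_univ_le.trans (ciSup_le hB)

theorem logHeight₁_root_le {d : ℕ} (hd : 0 < d) (a : Fin d → K) (r : K)
    (h : r ^ d + ∑ i : Fin d, a i * r ^ (i : ℕ) = 0) :
    logHeight₁ r ≤ totalWeight K * Real.log d + ∑ i, logHeight₁ (a i) := by
  simp only [logHeight₁_eq_log_mulHeight₁]
  have hd' : (0 : ℝ) < d := by exact_mod_cast hd
  rw [← Real.log_prod fun i _ => mulHeight₁_ne_zero _, ← Real.log_pow,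
    ← Real.log_mul (by positivity) (Finset.prod_ne_zero_iff.2 fun i _ => mulHeight₁_ne_zero _)]
  exact Real.log_le_log (mulHeight₁_pos _) (mulHeight₁_root_le hd a r h)

end general

section extension

theorem prod_places_eq {K : Type*} [Field K] [NumberField K] (f : InfinitePlace K → ℝ) :
    ∏ w : InfinitePlace K, f w ^ w.mult = ∏ φ : K →+* ℂ, f (InfinitePlace.mk φ) := by
  classical
  rw [← Finset.prod_fiberwise Finset.univ InfinitePlace.mk (fun φ => f (InfinitePlace.mk φ))]
  refine Finset.prod_congr rfl fun w _ => ?_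
  rw [Finset.prod_congr rfl (g := fun _ => f w) fun φ hφ => by rw [(Finset.mem_filter.1 hφ).2],
    Finset.prod_const, InfinitePlace.card_filter_mk_eq]

variable {k K : Type*} [Field k] [NumberField k] [Field K] [NumberField K] [Algebra k K]

open scoped Classical in
theorem card_ext (ψ : k →+* ℂ) :
    (Finset.univ.filter fun φ : K →+* ℂ => φ.comp (algebraMap k K) = ψ).card
      = Module.finrank k K := by
  let _ : Algebra k ℂ := ψ.toAlgebra
  rw [← AlgHom.card k K ℂ, ← Fintype.card_coe]
  refine Fintype.card_congr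
    { toFun := fun φ => { φ.1 with
        commutes' := fun r => RingHom.congr_fun (Finset.mem_filter.1 φ.2).2 r }
      invFun := fun φ => ⟨φ.toRingHom, Finset.mem_filter.2 ⟨Finset.mem_univ _,
        RingHom.ext fun r => φ.commutes r⟩⟩
      left_inv := fun φ => rfl
      right_inv := fun φ => rfl }

theorem prod_emb_ext (g : (k →+* ℂ) → ℝ) :
    ∏ φ : K →+* ℂ, g (φ.comp (algebraMap k K)) = (∏ ψ : k →+* ℂ, g ψ) ^ Module.finrank k K := by
  classical
  rw [← Finset.prod_fiberwise Finset.univ (fun φ : K →+* ℂ => φ.comp (algebraMap k K)),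
    ← Finset.prod_pow]
  refine Finset.prod_congr rfl fun ψ _ => ?_
  rw [Finset.prod_congr rfl (g := fun _ => g ψ) fun φ hφ => by rw [(Finset.mem_filter.1 hφ).2],
    Finset.prod_const, card_ext]

theorem mulHeight_ext_int {ι : Type*} [Finite ι] (x : ι → 𝓞 k) (hx : x ≠ 0) :
    mulHeight (fun i => algebraMap k K (x i)) = mulHeight (fun i => (x i : k)) ^ Module.finrank k K := by
  obtain ⟨i₀, hi₀⟩ := Function.ne_iff.1 hx
  have hx1 : (fun i => (x i : k)) ≠ 0 := Function.ne_iff.2 ⟨i₀, by simpa using hi₀⟩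
  have hx2 : (fun i => algebraMap k K (x i)) ≠ 0 := Function.ne_iff.2 ⟨i₀, by simpa using hi₀⟩
  let y : ι → 𝓞 K := fun i => algebraMap (𝓞 k) (𝓞 K) (x i)
  have hy : ∀ i, (y i : K) = algebraMap k K (x i) := fun i => rfl
  have hy0 : y ≠ 0 := Function.ne_iff.2 ⟨i₀, fun h => by
    have := hy i₀
    rw [h] at this
    apply hi₀
    simpa using this.symm⟩
  have n1 := absNorm_mul_finprod_finitePlace_eq_one hx
  have n2 := absNorm_mul_finprod_finitePlace_eq_one hy0
  have hspan : Ideal.span (Set.range y) = (Ideal.span (Set.range x)).map (algebraMap (𝓞 k) (𝓞 K)) := by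
    rw [Ideal.map_span, ← Set.range_comp]; rfl
  rw [hspan, Ideal.absNorm_algebraMap, ← IsFractionRing.finrank_eq (𝓞 k) k (𝓞 K) K] at n2
  simp only [hy] at n2
  rw [NumberField.mulHeight_eq hx1, NumberField.mulHeight_eq hx2, mul_pow]
  congr 1
  · rw [prod_places_eq (fun v => ⨆ i, v (algebraMap k K (x i))),
      prod_places_eq (fun v => ⨆ i, v (x i : k)),
      ← prod_emb_ext (K := K) (fun ψ => ⨆ i, InfinitePlace.mk ψ (x i : k))]
    rfl
  · have n3 := congrArg (· ^ Module.finrank k K) n1
    simp only [mul_pow, one_pow] at n3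
    push_cast at n2
    have hne : ((Ideal.absNorm (Ideal.span (Set.range x)) : ℝ)) ^ Module.finrank k K ≠ 0 :=
      left_ne_zero_of_mul_eq_one n3
    exact mul_left_cancel₀ hne (n2.trans n3.symm)

theorem mulHeight_ext {ι : Type*} [Finite ι] (x : ι → k) :
    mulHeight (fun i => algebraMap k K (x i)) = mulHeight x ^ Module.finrank k K := by
  classical
  rcases eq_or_ne x 0 with rfl | hx
  · simp
  have := Fintype.ofFinite ι
  obtain ⟨c, hc, hint⟩ := exists_integral_multiples ℤ ℚ (Finset.univ.image x)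
  let y : ι → 𝓞 k := fun i => ⟨c • x i, hint _ (Finset.mem_image_of_mem _ (Finset.mem_univ i))⟩
  have hck : (c : k) ≠ 0 := by exact_mod_cast hc
  have hcK : (c : K) ≠ 0 := by exact_mod_cast hc
  have e1 : (fun i => (y i : k)) = (c : k) • x := by
    ext i; simp [y]
  have hy : y ≠ 0 := by
    intro h
    have : (c : k) • x = 0 := by rw [← e1, h]; ext i; simp
    exact hx ((smul_eq_zero.1 this).resolve_left hck)
  have e2 : (fun i => algebraMap k K (y i)) = (c : K) • fun i => algebraMap k K (x i) := by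
    ext i; simp [y]
  have := mulHeight_ext_int (K := K) y hy
  rwa [e1, e2, mulHeight_smul_eq_mulHeight _ hck, mulHeight_smul_eq_mulHeight _ hcK] at this

theorem logHeight_ext {ι : Type*} [Finite ι] (x : ι → k) :
    logHeight (fun i => algebraMap k K (x i)) = Module.finrank k K * logHeight x := by
  rw [logHeight_eq_log_mulHeight, mulHeight_ext, Real.log_pow, logHeight_eq_log_mulHeight]

end extension

end Pool.Agent.MP_216eb3_nt.H66
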