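import Pool.Agent.MP_216eb3_nt.H66.Defs
import Pool.Agent.MP_216eb3_nt.H66.Local

set_option autoImplicit false

namespace Pool.Agent.MP_216eb3_nt.H66

open Height NumberField

theorem absHeight_eq {n : ℕ} (L : IntermediateField ℚ Qb) [NumberField L] (y : Fin n → L) :
    absHeight (fun i => (y i : Qb)) = logHeight y / Module.finrank ℚ L := by
  have hle : IntermediateField.adjoin ℚ (Set.range fun i => (y i : Qb)) ≤ L := by
    rw [IntermediateField.adjoin_le_iff]
    rintro _ ⟨i, rfl⟩
    exact (y i).2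
  unfold absHeight
  have := numberField_adjoin (Set.finite_range fun i => (y i : Qb))
  set L₀ := IntermediateField.adjoin ℚ (Set.range fun i => (y i : Qb)) with hL₀
  let _ : Algebra L₀ L := (IntermediateField.inclusion hle).toRingHom.toAlgebra
  have : IsScalarTower ℚ L₀ L := IsScalarTower.of_algebraMap_eq fun q => by simp
  have h1 := logHeight_ext (K := L) (fun i => (⟨(y i : Qb),
    IntermediateField.subset_adjoin ℚ _ ⟨i, rfl⟩⟩ : L₀))
  have h2 : (fun i => algebraMap L₀ L (⟨(y i : Qb),
    IntermediateField.subset_adjoin ℚ _ ⟨i, rfl⟩⟩ : L₀)) = y := by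
    ext i; rfl
  rw [h2] at h1
  have h3 := Module.finrank_mul_finrank ℚ L₀ L
  have p0 : 0 < Module.finrank ℚ L := Module.finrank_pos
  have p1 : (Module.finrank L₀ L : ℝ) ≠ 0 := by
    have : Module.finrank L₀ L ≠ 0 := fun h => by rw [h] at h3; omega
    exact_mod_cast this
  have p2 : (Module.finrank ℚ L₀ : ℝ) ≠ 0 := by
    have : Module.finrank ℚ L₀ ≠ 0 := fun h => by rw [h] at h3; omega
    exact_mod_cast this
  rw [h1, ← h3]
  push_cast
  rw [mul_comm (Module.finrank ℚ L₀ : ℝ), mul_div_mul_left _ _ p1]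

theorem exists_field {s : Set Qb} (hs : s.Finite) :
    ∃ (L : IntermediateField ℚ Qb) (_ : NumberField L), ∀ x ∈ s, x ∈ L :=
  ⟨_, numberField_adjoin hs, fun _ hx => IntermediateField.subset_adjoin ℚ _ hx⟩

/-- absolute height of an algebraic number -/
noncomputable def h1 (a : Qb) : ℝ := absHeight ![a, 1]

theorem h1_eq (L : IntermediateField ℚ Qb) [NumberField L] (a : L) :
    h1 a = logHeight₁ a / Module.finrank ℚ L := by
  rw [logHeight₁_eq_logHeight, ← absHeight_eq]
  unfold h1
  congr 1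
  ext i; fin_cases i <;> simp

theorem finrank_pos' (L : IntermediateField ℚ Qb) [NumberField L] :
    (0 : ℝ) < Module.finrank ℚ L := by
  have p0 : 0 < Module.finrank ℚ L := Module.finrank_pos
  exact_mod_cast p0

theorem absHeight_nonneg {n : ℕ} (x : Fin n → Qb) : 0 ≤ absHeight x := by
  unfold absHeight
  have := numberField_adjoin (Set.finite_range x)
  exact div_nonneg (logHeight_nonneg _) (Nat.cast_nonneg _)

theorem h1_nonneg (a : Qb) : 0 ≤ h1 a := absHeight_nonneg _

theorem h1_add (a b : Qb) : h1 (a + b) ≤ Real.log 2 + h1 a + h1 b := by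
  obtain ⟨L, _, hL⟩ := exists_field (Set.toFinite ({a, b} : Set Qb))
  lift a to L using hL a (by simp)
  lift b to L using hL b (by simp)
  have hp := finrank_pos' L
  have := logHeight₁_add_le a b
  rw [totalWeight_eq_finrank] at this
  rw [← IntermediateField.coe_add, h1_eq, h1_eq, h1_eq, div_le_iff₀ hp]
  field_simp
  linarith

theorem h1_mul (a b : Qb) : h1 (a * b) ≤ h1 a + h1 b := by
  obtain ⟨L, _, hL⟩ := exists_field (Set.toFinite ({a, b} : Set Qb))
  lift a to L using hL a (by simp)
  lift b to L using hL b (by simp)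
  have hp := finrank_pos' L
  have := logHeight₁_mul_le a b
  rw [← IntermediateField.coe_mul, h1_eq, h1_eq, h1_eq, ← add_div]
  gcongr

theorem h1_inv (a : Qb) : h1 a⁻¹ = h1 a := by
  obtain ⟨L, _, hL⟩ := exists_field (Set.toFinite ({a} : Set Qb))
  lift a to L using hL a (by simp)
  rw [← IntermediateField.coe_inv, h1_eq, h1_eq, logHeight₁_inv]

theorem h1_neg (a : Qb) : h1 (-a) = h1 a := by
  obtain ⟨L, _, hL⟩ := exists_field (Set.toFinite ({a} : Set Qb))
  lift a to L using hL a (by simp)
  rw [← IntermediateField.coe_neg, h1_eq, h1_eq, logHeight₁_neg]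

theorem h1_root {d : ℕ} (hd : 0 < d) (a : Fin d → Qb) (r : Qb)
    (h : r ^ d + ∑ i : Fin d, a i * r ^ (i : ℕ) = 0) :
    h1 r ≤ Real.log d + ∑ i, h1 (a i) := by
  obtain ⟨L, _, hL⟩ := exists_field ((Set.finite_range a).insert r)
  lift r to L using hL r (by simp)
  lift a to Fin d → L using fun i => hL (a i) (by simp)
  have hp := finrank_pos' L
  have h' : r ^ d + ∑ i : Fin d, a i * r ^ (i : ℕ) = 0 := by
    apply Subtype.val_injective
    simpa using h
  have := logHeight₁_root_le hd a r h'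
  rw [totalWeight_eq_finrank] at this
  simp only [h1_eq]
  rw [← Finset.sum_div, div_le_iff₀ hp]
  field_simp
  linarith

theorem absHeight_smul {n : ℕ} (x : Fin n → Qb) {c : Qb} (hc : c ≠ 0) :
    absHeight (c • x) = absHeight x := by
  obtain ⟨L, _, hL⟩ := exists_field ((Set.finite_range x).insert c)
  lift c to L using hL c (by simp)
  lift x to Fin n → L using fun i => hL (x i) (by simp)
  have hc' : c ≠ 0 := fun h => hc (by simp [h])
  have e : ((c : Qb) • fun i => (x i : Qb)) = fun i => ((c • x) i : Qb) := by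
    ext i; simp
  rw [e, absHeight_eq, absHeight_eq, logHeight_smul_eq_logHeight _ hc']

theorem absHeight_le_sum' {n : ℕ} (x : Fin n → Qb) (j : Fin n) (hj : x j = 1) :
    absHeight x ≤ ∑ i, h1 (x i) := by
  obtain ⟨L, _, hL⟩ := exists_field (Set.finite_range x)
  lift x to Fin n → L using fun i => hL (x i) (by simp)
  have hp := finrank_pos' L
  have hj' : x j = 1 := Subtype.val_injective hj
  simp only [h1_eq]
  rw [absHeight_eq, ← Finset.sum_div]
  gcongr
  exact logHeight_le_sum x j hj'

theorem h1_le_absHeight {n : ℕ} (x : Fin n → Qb) (j : Fin n) (hj : x j = 1) (i : Fin n) :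
    h1 (x i) ≤ absHeight x := by
  obtain ⟨L, _, hL⟩ := exists_field (Set.finite_range x)
  lift x to Fin n → L using fun i => hL (x i) (by simp)
  have hp := finrank_pos' L
  have hj' : x j = 1 := Subtype.val_injective hj
  simp only [h1_eq]
  rw [absHeight_eq]
  gcongr
  exact logHeight₁_le_logHeight x j hj' i

/-- bound for an arbitrary nonzero tuple -/
theorem absHeight_le_sum {n : ℕ} (x : Fin n → Qb) (hx : x ≠ 0) :
    absHeight x ≤ (n + 1) * ∑ i, h1 (x i) := by
  obtain ⟨j, hj⟩ := Function.ne_iff.1 hx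
  have hj' : x j ≠ 0 := hj
  rw [← absHeight_smul x (inv_ne_zero hj')]
  refine (absHeight_le_sum' _ j (by simp [hj'])).trans ?_
  have b1 : h1 (x j) ≤ ∑ i, h1 (x i) :=
    Finset.single_le_sum (fun i _ => h1_nonneg (x i)) (Finset.mem_univ j)
  have b2 : ∀ i, h1 (((x j)⁻¹ • x) i) ≤ (∑ i, h1 (x i)) + h1 (x i) := fun i => by
    have := h1_mul (x j)⁻¹ (x i)
    rw [h1_inv] at this
    simp only [Pi.smul_apply, smul_eq_mul]
    linarith
  refine (Finset.sum_le_sum fun i _ => b2 i).trans (le_of_eq ?_)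
  rw [Finset.sum_add_distrib]
  simp
  ring

theorem h1_eval {n : ℕ} (p : MvPolynomial (Fin n) Qb) :
    ∃ c C : ℝ, 0 ≤ c ∧ ∀ x : Fin n → Qb, h1 (MvPolynomial.eval x p) ≤ c * ∑ i, h1 (x i) + C := by
  induction p using MvPolynomial.induction_on with
  | C a => exact ⟨0, h1 a, le_rfl, fun x => by simp⟩
  | add p q hp hq =>
    obtain ⟨c, C, hc, h⟩ := hp
    obtain ⟨c', C', hc', h'⟩ := hq
    refine ⟨c + c', Real.log 2 + C + C', by positivity, fun x => ?_⟩
    rw [map_add]
    have := h1_add (MvPolynomial.eval x p) (MvPolynomial.eval x q)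
    have := h x
    have := h' x
    linarith
  | mul_X p i hp =>
    obtain ⟨c, C, hc, h⟩ := hp
    refine ⟨c + 1, C, by positivity, fun x => ?_⟩
    rw [map_mul, MvPolynomial.eval_X]
    have := h1_mul (MvPolynomial.eval x p) (x i)
    have b1 : h1 (x i) ≤ ∑ i, h1 (x i) :=
      Finset.single_le_sum (fun i _ => h1_nonneg (x i)) (Finset.mem_univ i)
    have := h x
    linarith

theorem eval_smul_homog {n d : ℕ} {p : MvPolynomial (Fin n) Qb} (hp : p.IsHomogeneous d)
    (c : Qb) (x : Fin n → Qb) :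
    MvPolynomial.eval (c • x) p = c ^ d * MvPolynomial.eval x p := by
  rw [MvPolynomial.eval_eq', MvPolynomial.eval_eq', Finset.mul_sum]
  refine Finset.sum_congr rfl fun m hm => ?_
  have hd : ∑ i, m i = d := by
    have := hp (MvPolynomial.mem_support_iff.1 hm)
    rw [← this, Finsupp.weight_apply, Finsupp.sum_fintype _ _ (by simp)]
    simp
  simp only [Pi.smul_apply, smul_eq_mul, mul_pow]
  rw [Finset.prod_mul_distrib, Finset.prod_pow_eq_pow_sum, hd]
  ring

/-- Upper bound for the height of the image under forms. -/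
theorem absHeight_forms {n m d : ℕ} (F : Fin m → MvPolynomial (Fin n) Qb)
    (hF : ∀ j, (F j).IsHomogeneous d) :
    ∃ c C : ℝ, 0 ≤ c ∧ ∀ x : Fin n → Qb, x ≠ 0 → (fun j => MvPolynomial.eval x (F j)) ≠ 0 →
      absHeight (fun j => MvPolynomial.eval x (F j)) ≤ c * absHeight x + C := by
  choose c C hc h using fun j => h1_eval (F j)
  have hc0 : 0 ≤ ∑ j, c j := Finset.sum_nonneg fun j _ => hc j
  refine ⟨(m + 1) * ((∑ j, c j) * n), (m + 1) * ∑ j, C j, by positivity, fun x hx hFx => ?_⟩
  obtain ⟨j, hj⟩ := Function.ne_iff.1 hx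
  have hj' : x j ≠ 0 := hj
  set u : Fin n → Qb := (x j)⁻¹ • x with hu
  have hu1 : u j = 1 := by simp [hu, hj']
  have hpow : ((x j)⁻¹) ^ d ≠ 0 := pow_ne_zero _ (inv_ne_zero hj')
  have e : (fun k => MvPolynomial.eval u (F k)) =
      ((x j)⁻¹) ^ d • fun k => MvPolynomial.eval x (F k) := by
    ext k; rw [hu, eval_smul_homog (hF k)]; simp
  have hne : (fun k => MvPolynomial.eval u (F k)) ≠ 0 := by
    rw [e]; exact smul_ne_zero hpow hFx
  rw [← absHeight_smul _ hpow, ← e, ← absHeight_smul x (inv_ne_zero hj'), ← hu]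
  refine (absHeight_le_sum _ hne).trans ?_
  have b1 : ∑ i, h1 (u i) ≤ n * absHeight u := by
    have := Finset.sum_le_card_nsmul Finset.univ (fun i => h1 (u i)) (absHeight u)
      fun i _ => h1_le_absHeight u j hu1 i
    simpa using this
  have b2 : ∑ k, h1 (MvPolynomial.eval u (F k)) ≤ (∑ k, c k) * (n * absHeight u) + ∑ k, C k := by
    rw [Finset.sum_mul, ← Finset.sum_add_distrib]
    refine Finset.sum_le_sum fun k _ => (h k u).trans ?_
    have := mul_le_mul_of_nonneg_left b1 (hc k)
    linarith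
  have := mul_le_mul_of_nonneg_left b2 (show (0 : ℝ) ≤ m + 1 by positivity)
  linarith

end Pool.Agent.MP_216eb3_nt.H66
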