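import Mathlib

set_option autoImplicit false

namespace Pool.Agent.MP_216eb3_nt.H66

open scoped LinearAlgebra.Projectivization

/-- The field of algebraic numbers. -/
abbrev Qb : Type := AlgebraicClosure ℚ

/-- Projective space of lines in the space of n-tuples of algebraic numbers. -/
abbrev Proj (n : ℕ) : Type := ℙ Qb (Fin n → Qb)

theorem numberField_adjoin {s : Set Qb} (hs : s.Finite) :
    NumberField (IntermediateField.adjoin ℚ s) :=
  have : Finite s := hs
  have : FiniteDimensional ℚ (IntermediateField.adjoin ℚ s) :=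
    IntermediateField.finiteDimensional_adjoin fun x _ =>
      ((AlgebraicClosure.isAlgebraic ℚ).isAlgebraic x).isIntegral
  {}

/-- Absolute logarithmic Weil height of a tuple of algebraic numbers: the logarithmic height
relative to the number field generated by the coordinates, divided by the degree of that field. -/
noncomputable def absHeight {n : ℕ} (x : Fin n → Qb) : ℝ :=
  haveI := numberField_adjoin (Set.finite_range x)
  Height.logHeight (fun i => (⟨x i, IntermediateField.subset_adjoin ℚ _ ⟨i, rfl⟩⟩ :
      IntermediateField.adjoin ℚ (Set.range x))) /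
    Module.finrank ℚ (IntermediateField.adjoin ℚ (Set.range x))

/-- Zariski closed subsets of projective space: common zeros of a set of forms. -/
def IsZClosed {n : ℕ} (Z : Set (Proj n)) : Prop :=
  ∃ S : Set (MvPolynomial (Fin n) Qb), (∀ f ∈ S, ∃ d, f.IsHomogeneous d) ∧
    Z = {P | ∀ f ∈ S, MvPolynomial.eval P.rep f = 0}

/-- Quasi-projective (locally closed) subsets of projective space. -/
def IsQuasiProj {n : ℕ} (X : Set (Proj n)) : Prop :=
  ∃ Z W : Set (Proj n), IsZClosed Z ∧ IsZClosed W ∧ X = Z \ W

/-- Morphisms: maps given near every point by forms of one degree without common zero. -/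
def IsMorphism {n m : ℕ} {X : Set (Proj n)} {Y : Set (Proj m)} (π : X → Y) : Prop :=
  ∀ P : X, ∃ W : Set (Proj n), IsZClosed W ∧ P.1 ∉ W ∧
    ∃ (d : ℕ) (F : Fin m → MvPolynomial (Fin n) Qb), (∀ j, (F j).IsHomogeneous d) ∧
      ∀ Q : X, Q.1 ∉ W → ∃ h : (fun j => MvPolynomial.eval Q.1.rep (F j)) ≠ 0,
        (π Q).1 = Projectivization.mk Qb _ h

/-- Ample heights: within a bounded amount of a positive multiple of the pullback of the standard
height under an isomorphism onto a quasi-projective subset of some projective space. -/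
def IsAmpleHeight {n : ℕ} {X : Set (Proj n)} (h : X → ℝ) : Prop :=
  ∃ (N : ℕ) (V : Set (Proj N)) (ι : X → V) (κ : V → X), IsQuasiProj V ∧
    IsMorphism ι ∧ IsMorphism κ ∧ (∀ P, κ (ι P) = P) ∧ (∀ Q, ι (κ Q) = Q) ∧
    ∃ c C : ℝ, 0 < c ∧ ∀ P : X, |h P - c * absHeight (ι P).1.rep| ≤ C

end Pool.Agent.MP_216eb3_nt.H66
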