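import Pool.Agent.MP_216eb3_nt.H66.Transfer

set_option autoImplicit false

namespace Pool.Agent.MP_216eb3_nt.H66

open MvPolynomial

theorem fin_sub {n : ℕ} (S : Set (MvPolynomial (Fin n) Qb)) :
    ∃ T : Finset (MvPolynomial (Fin n) Qb), (↑T : Set _) ⊆ S ∧
      ∀ x : Fin n → Qb, (∀ f ∈ T, eval x f = 0) → ∀ f ∈ S, eval x f = 0 := by
  obtain ⟨T, hT, hspan⟩ := (Submodule.fg_span_iff_fg_span_finset_subset
    (R := MvPolynomial (Fin n) Qb) S).1 (IsNoetherian.noetherian _)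
  refine ⟨T, hT, fun x hx f hf => ?_⟩
  have h1 : Submodule.span (MvPolynomial (Fin n) Qb) (↑T : Set _) ≤ RingHom.ker (eval x) :=
    Submodule.span_le.2 fun g hg => hx g hg
  exact h1 (hspan ▸ Submodule.subset_span hf)

theorem absHeight_rep_mk {n : ℕ} (v : Fin n → Qb) (hv : v ≠ 0) :
    absHeight (Projectivization.mk Qb v hv).rep = absHeight v := by
  obtain ⟨a, ha⟩ := Projectivization.exists_smul_eq_mk_rep Qb v hv
  rw [← ha]
  exact absHeight_smul v a.ne_zero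

theorem charts {n m : ℕ} {X : Set (Proj n)} {Y : Set (Proj m)} (hX : IsQuasiProj X)
    (π : X → Y) (hπ : IsMorphism π) :
    ∃ (TZ : Finset (MvPolynomial (Fin n) Qb)) (T : Finset X) (γ : X → MvPolynomial (Fin n) Qb)
      (e d : X → ℕ) (F : X → Fin m → MvPolynomial (Fin n) Qb),
      (∀ f ∈ TZ, ∃ k, f.IsHomogeneous k) ∧ (∀ P, (γ P).IsHomogeneous (e P)) ∧
      (∀ P j, (F P j).IsHomogeneous (d P)) ∧
      (∀ Q : X, (∀ f ∈ TZ, eval Q.1.rep f = 0) ∧ ∃ P ∈ T, eval Q.1.rep (γ P) ≠ 0) ∧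
      ∀ (P : X) (Q : Proj n), (∀ f ∈ TZ, eval Q.rep f = 0) → eval Q.rep (γ P) ≠ 0 →
        ∃ (hQ : Q ∈ X) (h : (fun j => eval Q.rep (F P j)) ≠ 0),
          (π ⟨Q, hQ⟩).1 = Projectivization.mk Qb _ h := by
  classical
  obtain ⟨Z, W, ⟨SZ, hSZ, rfl⟩, ⟨SW, hSW, rfl⟩, hXe⟩ := hX
  obtain ⟨TZ, hTZ, hTZ'⟩ := fin_sub SZ
  choose WP hWP hP d F hF hloc using hπ
  choose SP hSP hWPe using hWP
  have h1 : ∀ P : X, ∃ g ∈ SP P, eval P.1.rep g ≠ 0 := fun P => by
    have := hP P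
    rw [hWPe P] at this
    simpa using this
  have h2 : ∀ P : X, ∃ g ∈ SW, eval P.1.rep g ≠ 0 := fun P => by
    have := (hXe.subset P.2).2
    simpa using this
  choose g hg hg0 using h1
  choose g' hg' hg0' using h2
  choose e1 he1 using fun P => hSP P _ (hg P)
  choose e2 he2 using fun P => hSW _ (hg' P)
  obtain ⟨TG, hTG, hTG'⟩ := fin_sub (Set.range fun P : X => g P * g' P)
  choose pt hpt using fun f : TG => hTG f.2
  refine ⟨TZ, Finset.univ.image pt, fun P => g P * g' P, fun P => e1 P + e2 P, d, F,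
    fun f hf => hSZ f (hTZ hf), fun P => (he1 P).mul (he2 P), hF, fun Q => ⟨fun f hf => ?_, ?_⟩,
    fun P Q hQZ hQ => ?_⟩
  · exact (hXe.subset Q.2).1 f (hTZ hf)
  · by_contra hcon
    push Not at hcon
    have := hTG' Q.1.rep (fun f hf => by
      have := hcon (pt ⟨f, hf⟩) (Finset.mem_image_of_mem _ (Finset.mem_univ _))
      have e := hpt ⟨f, hf⟩
      simp only at e
      rwa [e] at this) (g Q * g' Q) ⟨Q, rfl⟩
    rw [map_mul] at this
    exact mul_ne_zero (hg0 Q) (hg0' Q) this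
  · rw [map_mul] at hQ
    have hQX : Q ∈ X :=
      hXe.symm.subset ⟨hTZ' _ hQZ, fun h => right_ne_zero_of_mul hQ (h _ (hg' P))⟩
    refine ⟨hQX, hloc P ⟨Q, hQX⟩ ?_⟩
    rw [hWPe P]
    exact fun h => left_ne_zero_of_mul hQ (h _ (hg P))

theorem finite_bound {α β : Type} (T : Finset α) (R : α → β → Prop) (u v : β → ℝ)
    (hv : ∀ b, 0 ≤ v b) (hT : ∀ b, ∃ P ∈ T, R P b)
    (h : ∀ P, ∃ c C : ℝ, 0 ≤ c ∧ ∀ b, R P b → u b ≤ c * v b + C) :
    ∃ c C : ℝ, 0 < c ∧ ∀ b, u b ≤ c * v b + C := by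
  choose c C hc h using h
  have h0 : 0 ≤ ∑ P ∈ T, c P := Finset.sum_nonneg fun P _ => hc P
  refine ⟨∑ P ∈ T, c P + 1, ∑ P ∈ T, |C P|, by linarith, fun b => ?_⟩
  obtain ⟨P, hP, hR⟩ := hT b
  have b1 : c P ≤ ∑ P ∈ T, c P := Finset.single_le_sum (fun P _ => hc P) hP
  have b2 : |C P| ≤ ∑ P ∈ T, |C P| :=
    Finset.single_le_sum (f := fun P => |C P|) (fun P _ => abs_nonneg _) hP
  have b3 := le_abs_self (C P)
  have b4 := h P b hR
  have b5 := hv b
  nlinarith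

theorem image_bound {n m : ℕ} {X : Set (Proj n)} {Y : Set (Proj m)} (hX : IsQuasiProj X)
    (π : X → Y) (hπ : IsMorphism π) :
    ∃ c C : ℝ, 0 < c ∧ ∀ Q : X, absHeight (π Q).1.rep ≤ c * absHeight Q.1.rep + C := by
  obtain ⟨TZ, T, γ, e, d, F, -, -, hF, hcov, hch⟩ := charts hX π hπ
  refine finite_bound T (fun (P Q : X) => eval Q.1.rep (γ P) ≠ 0)
    (fun Q : X => absHeight (π Q).1.rep) (fun Q : X => absHeight Q.1.rep)
    (fun Q => absHeight_nonneg Q.1.rep) (fun Q => (hcov Q).2) fun P => ?_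
  obtain ⟨c, C, hc, h⟩ := absHeight_forms (F P) (hF P)
  refine ⟨c, C, hc, fun Q hQ => ?_⟩
  obtain ⟨hQX, hne, he⟩ := hch P Q.1 (hcov Q).1 hQ
  have : (π Q).1 = _ := he
  rw [this, absHeight_rep_mk]
  exact h _ Q.1.rep_nonzero hne

theorem chart_transfer {n m : ℕ} (TZ : Finset (MvPolynomial (Fin n) Qb))
    (γ : MvPolynomial (Fin n) Qb) (F : Fin m → MvPolynomial (Fin n) Qb) :
    ∃ c : ℝ, 0 ≤ c ∧ ∀ y : Fin m → Qb,
      (∃ (x : Fin n → Qb) (l : Qb), x ≠ 0 ∧ l ≠ 0 ∧ (∀ f ∈ TZ, eval x f = 0) ∧ eval x γ ≠ 0 ∧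
        ∀ j, eval x (F j) = l * y j) →
      ∃ (x : Fin n → Qb) (l : Qb), (x ≠ 0 ∧ l ≠ 0 ∧ (∀ f ∈ TZ, eval x f = 0) ∧ eval x γ ≠ 0 ∧
        ∀ j, eval x (F j) = l * y j) ∧ ∑ k, h1 (x k) ≤ c * (∑ j, h1 (y j) + 1) := by
  classical
  let ix : Fin n → Option (Fin n ⊕ Fin n) ⊕ Fin m := fun k => Sum.inl (some (Sum.inl k))
  let iν : Fin n → Option (Fin n ⊕ Fin n) ⊕ Fin m := fun k => Sum.inl (some (Sum.inr k))
  let p : Option (TZ ⊕ Fin m) → MvPolynomial (Option (Fin n ⊕ Fin n) ⊕ Fin m) Qb := fun i =>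
    match i with
    | none => X (Sum.inl none) * rename ix γ * (∑ k, X (iν k) * X (ix k)) - 1
    | some (Sum.inl f) => rename ix f.1
    | some (Sum.inr j) => rename ix (F j) - X (Sum.inl none) * X (Sum.inr j)
  have hp : ∀ (w : Option (Fin n ⊕ Fin n) → Qb) (y : Fin m → Qb),
      (∀ i, eval (Sum.elim w y) (p i) = 0) ↔
        (w none * eval (fun k => w (some (Sum.inl k))) γ *
          (∑ k, w (some (Sum.inr k)) * w (some (Sum.inl k))) = 1 ∧
        (∀ f ∈ TZ, eval (fun k => w (some (Sum.inl k))) f = 0) ∧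
        ∀ j, eval (fun k => w (some (Sum.inl k))) (F j) = w none * y j) := by
    intro w y
    have hc : (Sum.elim w y) ∘ ix = fun k => w (some (Sum.inl k)) := rfl
    rw [Option.forall, Sum.forall, Subtype.forall]
    simp only [p, map_sub, map_mul, map_sum, eval_X, eval_rename, hc, map_one, sub_eq_zero,
      Sum.elim_inl, Sum.elim_inr, ix, iν]
  obtain ⟨c, hc, h⟩ := transfer p
  refine ⟨c, hc, fun y hy => ?_⟩
  obtain ⟨x, l, hx, hl, h1', h2, h3⟩ := hy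
  obtain ⟨k₀, hk₀⟩ := Function.ne_iff.1 hx
  have hk₀' : x k₀ ≠ 0 := hk₀
  obtain ⟨w, hw, hb⟩ := h y ⟨fun s => s.elim l
      (Sum.elim x (Pi.single k₀ (l * eval x γ * x k₀)⁻¹)), (hp _ _).2 ⟨by
        simp only [Option.elim, Sum.elim_inl, Sum.elim_inr]
        rw [Finset.sum_eq_single k₀ (fun b _ hb => by simp [hb]) (by simp)]
        simp only [Pi.single_eq_same]
        field_simp, h1', h3⟩⟩
  obtain ⟨a1, a2, a3⟩ := (hp _ _).1 hw
  refine ⟨fun k => w (some (Sum.inl k)), w none, ⟨?_, ?_, a2, ?_, a3⟩, le_trans ?_ hb⟩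
  · intro h0
    have : ∀ k, w (some (Sum.inl k)) = 0 := fun k => congrFun h0 k
    simp [this] at a1
  · intro h0; simp [h0] at a1
  · intro h0; simp [h0] at a1
  · rw [Fintype.sum_option, Fintype.sum_sum_type]
    have := h1_nonneg (w none)
    have : 0 ≤ ∑ k, h1 (w (some (Sum.inr k))) := Finset.sum_nonneg fun _ _ => h1_nonneg _
    linarith

theorem fibre_bound {n m : ℕ} {X : Set (Proj n)} {Y : Set (Proj m)} (hX : IsQuasiProj X)
    (π : X → Y) (hπ : IsMorphism π) :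
    ∃ c C : ℝ, 0 < c ∧ ∀ Q : X, ∃ Q' : X, π Q = π Q' ∧
      absHeight Q'.1.rep ≤ c * absHeight (π Q).1.rep + C := by
  obtain ⟨TZ, T, γ, e, d, F, hTZ, hγ, hF, hcov, hch⟩ := charts hX π hπ
  have key : ∀ P : X, ∃ c C : ℝ, 0 ≤ c ∧ ∀ Q : X, eval Q.1.rep (γ P) ≠ 0 →
      ∃ Q' : X, π Q = π Q' ∧ absHeight Q'.1.rep ≤ c * absHeight (π Q).1.rep + C := by
    intro P
    obtain ⟨c, hc, h⟩ := chart_transfer TZ (γ P) (F P)
    refine ⟨(n + 1) * (c * m), (n + 1) * c, by positivity, fun Q hQ => ?_⟩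
    obtain ⟨hQX, hne, he⟩ := hch P Q.1 (hcov Q).1 hQ
    have he' : (π Q).1 = _ := he
    obtain ⟨j₀, hj₀⟩ := Function.ne_iff.1 hne
    have hj₀' : eval Q.1.rep (F P j₀) ≠ 0 := hj₀
    set l := eval Q.1.rep (F P j₀) with hl
    set y : Fin m → Qb := l⁻¹ • fun j => eval Q.1.rep (F P j) with hy
    have hy1 : y j₀ = 1 := by simp [hy, ← hl, hj₀']
    have hyh : absHeight y = absHeight (π Q).1.rep := by
      rw [he', absHeight_rep_mk, hy, absHeight_smul _ (inv_ne_zero hj₀')]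
    obtain ⟨x, l', ⟨a1, a2, a3, a4, a5⟩, a6⟩ := h y ⟨Q.1.rep, l, Q.1.rep_nonzero, hj₀',
      (hcov Q).1, hQ, fun j => by simp [hy, hj₀']⟩
    obtain ⟨b, hb⟩ := Projectivization.exists_smul_eq_mk_rep Qb x a1
    have hb' : (Projectivization.mk Qb x a1).rep = (b : Qb) • x := hb.symm
    obtain ⟨hQX', hne', he2⟩ := hch P (Projectivization.mk Qb x a1)
      (fun f hf => by
        obtain ⟨k, hk⟩ := hTZ f hf
        rw [hb', eval_smul_homog hk, a3 f hf, mul_zero])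
      (by
        rw [hb', eval_smul_homog (hγ P)]
        exact mul_ne_zero (pow_ne_zero _ b.ne_zero) a4)
    refine ⟨⟨_, hQX'⟩, ?_, ?_⟩
    · apply Subtype.ext
      rw [he', he2]
      symm
      rw [Projectivization.mk_eq_mk_iff']
      refine ⟨(b : Qb) ^ d P * l' * l⁻¹, ?_⟩
      ext j
      simp only [Pi.smul_apply, smul_eq_mul]
      rw [hb', eval_smul_homog (hF P j), a5 j, hy]
      simp only [Pi.smul_apply, smul_eq_mul]
      ring
    · simp only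
      rw [absHeight_rep_mk, ← hyh]
      have b1 : ∑ j, h1 (y j) ≤ m * absHeight y := by
        have := Finset.sum_le_card_nsmul Finset.univ (fun j => h1 (y j)) (absHeight y)
          fun j _ => h1_le_absHeight y j₀ hy1 j
        simpa using this
      have b2 := absHeight_le_sum x a1
      have b3 := mul_le_mul_of_nonneg_left b1 hc
      have b4 : ∑ k, h1 (x k) ≤ c * (m * absHeight y) + c := by linarith
      have b5 := mul_le_mul_of_nonneg_left b4 (show (0 : ℝ) ≤ n + 1 by positivity)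
      linarith
  choose c C hc h using key
  choose ch hch1 hch2 using fun Q : X => (hcov Q).2
  choose sel hsel1 hsel2 using fun Q : X => h (ch Q) Q (hch2 Q)
  obtain ⟨c', C', hc', h'⟩ := finite_bound T (fun P Q => ch Q = P)
    (fun Q => absHeight (sel Q).1.rep) (fun Q => absHeight (π Q).1.rep)
    (fun Q => absHeight_nonneg _) (fun Q => ⟨ch Q, hch1 Q, rfl⟩)
    (fun P => ⟨c P, C P, hc P, fun Q hQ => hQ ▸ hsel2 Q⟩)
  exact ⟨c', C', hc', fun Q => ⟨sel Q, hsel1 Q, h' Q⟩⟩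

theorem ample_cmp {n : ℕ} {X : Set (Proj n)} (hX : IsQuasiProj X) {h : X → ℝ}
    (hh : IsAmpleHeight h) :
    ∃ a A b B : ℝ, 0 < a ∧ 0 < b ∧ ∀ P : X, h P ≤ a * absHeight P.1.rep + A ∧
      b * absHeight P.1.rep - B ≤ h P := by
  obtain ⟨N, V, ι, κ, hV, hι, hκ, h1, -, c, C, hc, hC⟩ := hh
  obtain ⟨a, A, ha, hA⟩ := image_bound hX ι hι
  obtain ⟨b, B, hb, hB⟩ := image_bound hV κ hκ
  refine ⟨c * a, c * A + C, c / b, c / b * B + C, by positivity, by positivity, fun P => ⟨?_, ?_⟩⟩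
  · have e1 := (abs_le.1 (hC P)).2
    have e2 := mul_le_mul_of_nonneg_left (hA P) hc.le
    linarith
  · have e1 := (abs_le.1 (hC P)).1
    have e2 := hB (ι P)
    rw [h1] at e2
    have e3 := mul_le_mul_of_nonneg_left e2 (show 0 ≤ c / b by positivity)
    have e4 : c / b * (b * absHeight (ι P).1.rep) = c * absHeight (ι P).1.rep := by field_simp
    rw [mul_add, e4] at e3
    linarith

/-- The identity is a morphism, so the standard height is an ample height. -/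
theorem isAmpleHeight_std {n : ℕ} {X : Set (Proj n)} (hX : IsQuasiProj X) :
    IsAmpleHeight fun P : X => absHeight P.1.rep := by
  have hid : IsMorphism (id : X → X) := fun P =>
    ⟨∅, ⟨{1}, fun f hf => ⟨0, by rw [hf]; exact isHomogeneous_one _ _⟩, by ext Q; simp⟩,
      Set.notMem_empty _, 1, MvPolynomial.X, fun j => isHomogeneous_X _ _, fun Q _ => by
        simp only [eval_X]
        exact ⟨Q.1.rep_nonzero, (Projectivization.mk_rep Q.1).symm⟩⟩
  exact ⟨n, X, id, id, hX, hid, hid, fun _ => rfl, fun _ => rfl, 1, 0, one_pos, fun P => by simp⟩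

end Pool.Agent.MP_216eb3_nt.H66
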