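import Pool.Agent.MP_216eb3_nt.H66.Abs

set_option autoImplicit false

namespace Pool.Agent.MP_216eb3_nt.H66

open Filter

/-- the ultrapower of the algebraic numbers -/
abbrev Ks : Type := Germ (hyperfilter ℕ : Filter ℕ) Qb

/-- germ of a sequence -/
noncomputable def gm : (ℕ → Qb) →+* Ks := Germ.coeRingHom _

theorem gm_apply (f : ℕ → Qb) : gm f = (f : Ks) := rfl

theorem gm_inv (f : ℕ → Qb) : gm f⁻¹ = (gm f)⁻¹ := rfl

theorem gm_eq_zero {f : ℕ → Qb} : gm f = 0 ↔ ∀ᶠ N in (hyperfilter ℕ : Filter ℕ), f N = 0 := by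
  rw [← map_zero gm, gm_apply, gm_apply, Germ.coe_eq]
  rfl

/-- germs of sequences of height at most a constant times T -/
noncomputable def small (T : ℕ → ℝ) (hT : ∀ N, 1 ≤ T N) : Subfield Ks where
  carrier := {g | ∃ (f : ℕ → Qb) (c : ℝ), gm f = g ∧ ∀ N, h1 (f N) ≤ c * T N}
  mul_mem' := by
    rintro _ _ ⟨f, c, rfl, h⟩ ⟨f', c', rfl, h'⟩
    refine ⟨f * f', c + c', map_mul _ _ _, fun N => ?_⟩
    have := h1_mul (f N) (f' N)
    have := h N
    have := h' N
    simp only [Pi.mul_apply]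
    linarith
  one_mem' := ⟨1, h1 1, map_one _, fun N => by
    have := h1_nonneg 1
    have := hT N
    simp only [Pi.one_apply]
    nlinarith⟩
  add_mem' := by
    rintro _ _ ⟨f, c, rfl, h⟩ ⟨f', c', rfl, h'⟩
    refine ⟨f + f', Real.log 2 + c + c', map_add _ _ _, fun N => ?_⟩
    have := h1_add (f N) (f' N)
    have := h N
    have := h' N
    have := hT N
    have : 0 ≤ Real.log 2 := Real.log_nonneg (by norm_num)
    simp only [Pi.add_apply]
    nlinarith
  zero_mem' := ⟨0, h1 0, map_zero _, fun N => by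
    have := h1_nonneg 0
    have := hT N
    simp only [Pi.zero_apply]
    nlinarith⟩
  neg_mem' := by
    rintro _ ⟨f, c, rfl, h⟩
    exact ⟨-f, c, map_neg _ _, fun N => by simpa [h1_neg] using h N⟩
  inv_mem' := by
    rintro _ ⟨f, c, rfl, h⟩
    exact ⟨f⁻¹, c, gm_inv f, fun N => by simpa [h1_inv] using h N⟩

theorem mem_small {T : ℕ → ℝ} {hT : ∀ N, 1 ≤ T N} {g : Ks} : g ∈ small T hT ↔
    ∃ (f : ℕ → Qb) (c : ℝ), gm f = g ∧ ∀ N, h1 (f N) ≤ c * T N := Iff.rfl

theorem exists_root_fin {d : ℕ} (hd : 0 < d) (a : Fin d → Qb) :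
    ∃ r : Qb, r ^ d + ∑ i : Fin d, a i * r ^ (i : ℕ) = 0 := by
  have hlt : (∑ i : Fin d, Polynomial.C (a i) * Polynomial.X ^ (i : ℕ)).degree < (d : WithBot ℕ) :=
    Polynomial.degree_sum_fin_lt a
  have hdeg : (Polynomial.X ^ d + ∑ i : Fin d, Polynomial.C (a i) * Polynomial.X ^ (i : ℕ) :
      Polynomial Qb).degree = d := by
    rw [Polynomial.degree_add_eq_left_of_degree_lt (by rwa [Polynomial.degree_X_pow]),
      Polynomial.degree_X_pow]
  obtain ⟨r, hr⟩ := IsAlgClosed.exists_root (Polynomial.X ^ d +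
      ∑ i : Fin d, Polynomial.C (a i) * Polynomial.X ^ (i : ℕ) : Polynomial Qb)
      (by rw [hdeg]; exact_mod_cast hd.ne')
  refine ⟨r, ?_⟩
  simpa [Polynomial.IsRoot, Polynomial.eval_finsetSum] using hr

theorem small_algClosed (T : ℕ → ℝ) (hT : ∀ N, 1 ≤ T N) : IsAlgClosed (small T hT) := by
  refine IsAlgClosed.of_exists_root _ fun p hm hirr => ?_
  have hd : 0 < p.natDegree := hirr.natDegree_pos
  choose f c hf hc using fun i : Fin p.natDegree => mem_small.1 (p.coeff i).2
  choose r hr using fun N => exists_root_fin hd fun i => f i N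
  have hmem : gm r ∈ small T hT := by
    refine ⟨r, Real.log p.natDegree + ∑ i, c i, rfl, fun N => ?_⟩
    have h1' := h1_root hd _ _ (hr N)
    have h2 : ∑ i, h1 (f i N) ≤ (∑ i, c i) * T N := by
      rw [Finset.sum_mul]
      exact Finset.sum_le_sum fun i _ => hc i N
    have h3 : 0 ≤ Real.log p.natDegree := Real.log_natCast_nonneg _
    have := hT N
    nlinarith
  refine ⟨⟨gm r, hmem⟩, ?_⟩
  apply Subtype.val_injective
  have e : r ^ p.natDegree + ∑ i : Fin p.natDegree, f i * r ^ (i : ℕ) = 0 := by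
    ext N; simpa using hr N
  have e2 := congrArg gm e
  simp only [map_add, map_pow, map_sum, map_mul, map_zero, hf] at e2
  rw [Polynomial.eval_eq_sum_range, Finset.sum_range_succ, hm.coeff_natDegree,
    ← Fin.sum_univ_eq_sum_range (fun i => p.coeff i * (⟨gm r, hmem⟩ : small T hT) ^ i)]
  push_cast
  rw [← e2]
  ring

theorem gm_eval {σ : Type} (w : ℕ → σ → Qb) (p : MvPolynomial σ Qb) :
    gm (fun N => MvPolynomial.eval (w N) p) =
      MvPolynomial.eval₂Hom (gm.comp (Pi.constRingHom ℕ Qb)) (fun s => gm fun N => w N s) p := by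
  have : gm.comp (RingHom.pi fun N => MvPolynomial.eval (w N)) =
      MvPolynomial.eval₂Hom (gm.comp (Pi.constRingHom ℕ Qb)) (fun s => gm fun N => w N s) := by
    refine MvPolynomial.ringHom_ext (fun a => ?_) (fun s => ?_)
    · simp only [RingHom.comp_apply, MvPolynomial.eval₂Hom_C]
      congr 1
      ext N
      exact MvPolynomial.eval_C a
    · simp only [RingHom.comp_apply, MvPolynomial.eval₂Hom_X']
      congr 1
      ext N
      exact MvPolynomial.eval_X s
  exact RingHom.congr_fun this p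

/-- A solvable polynomial system has a solution of height linearly bounded in the height of the
parameters. -/
theorem transfer {σ τ ι : Type} [Fintype σ] [Fintype τ] [Finite ι] (p : ι → MvPolynomial (σ ⊕ τ) Qb) :
    ∃ c : ℝ, 0 ≤ c ∧ ∀ y : τ → Qb,
      (∃ x : σ → Qb, ∀ i, MvPolynomial.eval (Sum.elim x y) (p i) = 0) →
      ∃ x : σ → Qb, (∀ i, MvPolynomial.eval (Sum.elim x y) (p i) = 0) ∧
        ∑ k, h1 (x k) ≤ c * (∑ j, h1 (y j) + 1) := by
  by_contra hcon
  push Not at hcon
  choose y hy hbad using fun N : ℕ => hcon N (Nat.cast_nonneg N)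
  choose x hx using hy
  set T : ℕ → ℝ := fun N => ∑ j, h1 (y N j) + 1 with hTdef
  have hT : ∀ N, 1 ≤ T N := fun N => by
    have : 0 ≤ ∑ j, h1 (y N j) := Finset.sum_nonneg fun j _ => h1_nonneg _
    simp only [hTdef]; linarith
  have := small_algClosed T hT
  set E := small T hT with hE
  let κ : Qb →+* E := (gm.comp (Pi.constRingHom ℕ Qb)).codRestrict E fun a =>
    ⟨fun _ => a, h1 a, rfl, fun N => by
      have := h1_nonneg a
      have := hT N
      nlinarith⟩
  let yE : τ → E := fun j => ⟨gm fun N => y N j, fun N => y N j, 1, rfl, fun N => by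
    have : h1 (y N j) ≤ ∑ j, h1 (y N j) :=
      Finset.single_le_sum (fun j _ => h1_nonneg (y N j)) (Finset.mem_univ j)
    simp only [hTdef]; linarith⟩
  let Φ : MvPolynomial (σ ⊕ τ) Qb →+* MvPolynomial (σ) E :=
    MvPolynomial.eval₂Hom (MvPolynomial.C.comp κ)
      (Sum.elim MvPolynomial.X fun j => MvPolynomial.C (yE j))
  have key : ∀ (w : ℕ → σ → Qb) (q : MvPolynomial (σ ⊕ τ) Qb),
      MvPolynomial.eval₂Hom E.subtype (fun k => gm fun N => w N k) (Φ q) =
        gm fun N => MvPolynomial.eval (Sum.elim (w N) (y N)) q := by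
    intro w q
    rw [gm_eval]
    have : (MvPolynomial.eval₂Hom E.subtype (fun k => gm fun N => w N k)).comp Φ =
        MvPolynomial.eval₂Hom (gm.comp (Pi.constRingHom ℕ Qb))
          (fun s => gm fun N => Sum.elim (w N) (y N) s) := by
      refine MvPolynomial.ringHom_ext (fun a => ?_) (fun s => ?_)
      · simp [Φ, κ]
      · rcases s with k | j
        · simp [Φ]
        · simp [Φ, yE]
    exact RingHom.congr_fun this q
  let ev : MvPolynomial (σ) E →+* Ks :=
    MvPolynomial.eval₂Hom E.subtype (fun k => gm fun N => x N k)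
  obtain ⟨M, hM, hle⟩ := Ideal.exists_le_maximal (RingHom.ker ev) (RingHom.ker_ne_top ev)
  obtain ⟨z, hz⟩ := MvPolynomial.eq_vanishingIdeal_singleton_of_isMaximal E hM
  choose f c hf hc using fun k => mem_small.1 (z k).2
  have hzero : ∀ i, ∀ᶠ N in (hyperfilter ℕ : Filter ℕ),
      MvPolynomial.eval (Sum.elim (fun k => f k N) (y N)) (p i) = 0 := by
    intro i
    have h0 : Φ (p i) ∈ RingHom.ker ev := by
      rw [RingHom.mem_ker]
      simp only [ev]
      rw [key, gm_eq_zero]
      exact Eventually.of_forall fun N => hx N i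
    have h1' := hle h0
    rw [hz, MvPolynomial.mem_vanishingIdeal_singleton_iff] at h1'
    rw [← gm_eq_zero, ← key (fun N k => f k N)]
    have e : MvPolynomial.eval₂Hom E.subtype (fun k => gm fun N => f k N) =
        E.subtype.comp (MvPolynomial.aeval z : MvPolynomial (σ) E →ₐ[E] E).toRingHom := by
      refine MvPolynomial.ringHom_ext (fun a => ?_) (fun s => ?_)
      · simp
      · simp [← hf]
    rw [e]
    change E.subtype (MvPolynomial.aeval z (Φ (p i))) = 0
    rw [h1', map_zero]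
  have hall := eventually_all.2 hzero
  have hlarge : ∀ᶠ N : ℕ in (hyperfilter ℕ : Filter ℕ), ∑ k, c k ≤ (N : ℝ) := by
    have : ∀ᶠ N : ℕ in atTop, ∑ k, c k ≤ (N : ℝ) :=
      tendsto_natCast_atTop_atTop.eventually_ge_atTop _
    exact this.filter_mono Nat.hyperfilter_le_atTop
  obtain ⟨N, hN1, hN2⟩ := (hall.and hlarge).exists
  have b1 := hbad N _ hN1
  have b2 : ∑ k, h1 (f k N) ≤ (∑ k, c k) * T N := by
    rw [Finset.sum_mul]
    exact Finset.sum_le_sum fun k _ => hc k N
  have b3 := mul_le_mul_of_nonneg_right hN2 (zero_le_one.trans (hT N))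
  simp only [hTdef] at b2 b3
  linarith

end Pool.Agent.MP_216eb3_nt.H66
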